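import Pool.Agent.Helper25.HL.Goals4

/-!
# Project HL (MP_03bcbb_an): packet FN, the functionals of the main part are bounded
-/

set_option autoImplicit false

open Filter Topology
open Pool.Agent.Helper25.HL hiding sq

noncomputable section

namespace Pool.Agent.Helper16.HL

section rm

variable {p q : ℕ} (σ : Fin p → Fin q → Bool)

theorem rm_sq (a : Fin p) (t : Fin q) : (Rm σ a t) ^ 2 = 1 / p := by
  unfold Rm
  rw [div_pow, Real.sq_sqrt (Nat.cast_nonneg p)]
  split_ifs <;> norm_num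

theorem rm_abs (a : Fin p) (t : Fin q) : |Rm σ a t| = 1 / Real.sqrt p := by
  unfold Rm
  rw [abs_div, abs_of_nonneg (Real.sqrt_nonneg _)]
  split_ifs <;> norm_num

theorem rm_sum (hp : 1 ≤ p) (t : Fin q) : ∑ a, (Rm σ a t) ^ 2 = 1 := by
  have hp0 : (p : ℝ) ≠ 0 := by
    have : (0 : ℝ) < p := by exact_mod_cast hp
    exact this.ne'
  simp only [rm_sq, Finset.sum_const, Finset.card_univ, Fintype.card_fin, nsmul_eq_mul]
  field_simp

end rm

/-- The form of `S_LF` which is used. -/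
theorem lf_bound (hLF : S_LF) {p q : ℕ} (D : Lv p q) (f₁ : Fin p → ℝ) (f₂ : Fin q → ℝ)
    (M c : ℝ) (hM : 0 ≤ M) (hM' : ∀ t, |∑ a, f₁ a * Rm D.σ a t + f₂ t| ≤ M) (hc : 0 ≤ c)
    (h0 : ∑ a, f₁ a ^ 2 + ∑ t, f₂ t ^ 2 ≤ c ^ 2)
    (hJ : 1 ≤ D.J → ∑ a, f₁ a ^ 2 + ∑ t, f₂ t ^ 2 + D.r D.J * M ^ 2 ≤ c ^ 2)
    (z : (Fin p → ℂ) × (Fin q → ℂ)) :
    ‖∑ a, (f₁ a : ℂ) * z.1 a + ∑ t, (f₂ t : ℂ) * z.2 t‖ ≤ c * lnm D.σ D.J D.r z := by
  obtain ⟨h1, h2⟩ := hLF p q D.σ D.J D.r D.hr f₁ f₂ M hM hM' z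
  rcases Nat.eq_zero_or_pos D.J with h3 | h3
  · refine (h2 h3).trans (mul_le_mul_of_nonneg_right ?_ (lnm_nn _ _ _ _))
    exact (Real.sqrt_le_left hc).2 h0
  · refine (h1 h3).trans (mul_le_mul_of_nonneg_right ?_ (lnm_nn _ _ _ _))
    exact (Real.sqrt_le_left hc).2 (hJ h3)

section est

variable {p q : ℕ} (σ : Fin p → Fin q → Bool) (y : Fin p → ℝ) (t : Fin q)

theorem y_sq (hp : 2 ≤ p) (h : ∑ a, (y a - Rm σ a t) ^ 2 ≤ (2 / (p : ℝ) ^ 2) ^ 2) :
    ∑ a, y a ^ 2 ≤ 9 / 4 := by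
  have hp2 : (2 : ℝ) ≤ p := by exact_mod_cast hp
  have h1 : ∑ a, y a ^ 2 ≤ ∑ a, (3 / 2 * (Rm σ a t) ^ 2 + 3 * (y a - Rm σ a t) ^ 2) :=
    Finset.sum_le_sum fun a _ => by nlinarith [sq_nonneg (Rm σ a t - 2 * (y a - Rm σ a t))]
  rw [Finset.sum_add_distrib, ← Finset.mul_sum, ← Finset.mul_sum, rm_sum σ (by omega) t] at h1
  have h2 : 2 / (p : ℝ) ^ 2 ≤ 1 / 2 := by
    rw [div_le_div_iff₀ (by positivity) (by norm_num)]
    nlinarith
  have h3 : (2 / (p : ℝ) ^ 2) ^ 2 ≤ (1 / 2) ^ 2 := pow_le_pow_left₀ (by positivity) h2 2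
  linarith

theorem y_abs (hp : 2 ≤ p) (h : ∑ a, (y a - Rm σ a t) ^ 2 ≤ (2 / (p : ℝ) ^ 2) ^ 2)
    (a : Fin p) : |y a| ≤ 2 / Real.sqrt p := by
  have hp2 : (2 : ℝ) ≤ p := by exact_mod_cast hp
  have hp0 : (0 : ℝ) < p := by linarith
  have h1 : (y a - Rm σ a t) ^ 2 ≤ (2 / (p : ℝ) ^ 2) ^ 2 :=
    (Finset.single_le_sum (f := fun a => (y a - Rm σ a t) ^ 2) (fun a _ => by positivity)
      (Finset.mem_univ a)).trans h
  have h2 : |y a - Rm σ a t| ≤ 2 / (p : ℝ) ^ 2 := abs_le_of_sq_le_sq h1 (by positivity)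
  have h3 : 2 / (p : ℝ) ^ 2 ≤ 1 / Real.sqrt p := by
    rw [div_le_div_iff₀ (by positivity) (Real.sqrt_pos.2 hp0)]
    have h4 : Real.sqrt p ≤ p := by
      rw [Real.sqrt_le_left hp0.le]
      nlinarith
    nlinarith
  have h4 := abs_add_le (y a - Rm σ a t) (Rm σ a t)
  rw [sub_add_cancel, rm_abs] at h4
  have h5 : 2 / Real.sqrt p = 1 / Real.sqrt p + 1 / Real.sqrt p := by ring
  linarith

theorem e_rm (hp : 2 ≤ p) (h : ∑ a, (y a - Rm σ a t) ^ 2 ≤ (2 / (p : ℝ) ^ 2) ^ 2)
    (s : Fin q) : |∑ a, (y a - Rm σ a t) * Rm σ a s| ≤ 2 / (p : ℝ) ^ 2 := by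
  apply abs_le_of_sq_le_sq _ (by positivity)
  refine (Finset.sum_mul_sq_le_sq_mul_sq _ _ _).trans ?_
  rw [rm_sum σ (by omega) s, mul_one]
  exact h

end est

/-- The functional is bounded. -/
theorem fn (hLF : S_LF) (_hLP : S_LP2) : S_FN := by
  intro P D k hT y t hy x
  have hPk : ∀ j, 1 ≤ j → 2 ≤ P j := by
    intro j hj
    obtain ⟨i, rfl⟩ : ∃ i, j = i + 1 := ⟨j - 1, by omega⟩
    exact hT.hP i
  have hp : 2 ≤ P (k + 1) := hT.hP k
  have hp2 : (2 : ℝ) ≤ P (k + 1) := by exact_mod_cast hp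
  have hp0 : (0 : ℝ) < P (k + 1) := by linarith
  have hq2 : (2 : ℝ) ≤ P (k + 2) := by exact_mod_cast hT.hP (k + 1)
  have hq0 : (0 : ℝ) < P (k + 2) := by linarith
  have hk2 : (2 : ℝ) ≤ P k := by exact_mod_cast hPk k hT.hk
  have hpow : ∀ b : ℝ, 1 ≤ b → b ^ (1 / 8 : ℝ) ≤ b := by
    intro b hb
    calc b ^ (1 / 8 : ℝ) ≤ b ^ (1 : ℝ) := Real.rpow_le_rpow_of_exponent_le hb (by norm_num)
      _ = b := Real.rpow_one b
  have hysq := y_sq (D (k + 1)).σ y t hp hy
  -- the first part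
  have hA : ‖∑ a, (y a : ℂ) * (pr P D x k).2 a‖ ≤ 5 / 2 * ‖x k‖ := by
    have h1 := lf_bound hLF (D k) 0 y (2 / Real.sqrt (P (k + 1))) (5 / 2) (by positivity)
      (fun s => by
        simp only [Pi.zero_apply, zero_mul, Finset.sum_const_zero, zero_add]
        exact y_abs (D (k + 1)).σ y t hp hy s) (by norm_num)
      (by
        simp only [Pi.zero_apply, ne_eq, OfNat.ofNat_ne_zero, not_false_eq_true, zero_pow,
          Finset.sum_const_zero, zero_add]
        linarith)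
      (fun hJ => by
        simp only [Pi.zero_apply, ne_eq, OfNat.ofNat_ne_zero, not_false_eq_true, zero_pow,
          Finset.sum_const_zero, zero_add]
        have e1 := hT.hr k (by omega) hJ
        have e2 := hpow (P k) (by linarith)
        have e3 : (P k : ℝ) ≤ P (k + 1) := by
          have e4 : P k ≤ P (k + 1) :=
            (Nat.le_self_pow (by norm_num) (P k)).trans (hT.hg k hT.hk)
          exact_mod_cast e4
        have e5 : (2 / Real.sqrt (P (k + 1))) ^ 2 = 4 / P (k + 1) := by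
          rw [div_pow, Real.sq_sqrt hp0.le]; norm_num
        rw [e5]
        have e6 : (D k).r (D k).J * (4 / (P (k + 1) : ℝ)) ≤ P (k + 1) * (4 / (P (k + 1) : ℝ)) :=
          mul_le_mul_of_nonneg_right (by linarith) (by positivity)
        have e7 : (P (k + 1) : ℝ) * (4 / (P (k + 1) : ℝ)) = 4 := by field_simp
        linarith) (pr P D x k)
    simp only [Pi.zero_apply, Complex.ofReal_zero, zero_mul, Finset.sum_const_zero,
      zero_add] at h1
    exact h1
  -- the second part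
  have hB : ‖∑ a, (y a : ℂ) * (pr P D x (k + 1)).1 a - (pr P D x (k + 1)).2 t‖ ≤
      3 * ‖x (k + 1)‖ := by
    have hneg : 2 / (P (k + 1) : ℝ) ^ 2 ≤ (P (k + 1) : ℝ) ^ (-(1 / 4 : ℝ)) := by
      calc 2 / (P (k + 1) : ℝ) ^ 2 ≤ (P (k + 1) : ℝ) ^ (-1 : ℝ) := by
            rw [Real.rpow_neg_one, ← one_div, div_le_div_iff₀ (by positivity) hp0]
            nlinarith
        _ ≤ (P (k + 1) : ℝ) ^ (-(1 / 4 : ℝ)) :=
            Real.rpow_le_rpow_of_exponent_le (by linarith) (by norm_num)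
    have hpos : 0 < (P (k + 1) : ℝ) ^ (-(1 / 4 : ℝ)) := Real.rpow_pos_of_pos hp0 _
    have h1 := lf_bound hLF (D (k + 1)) y (fun s => if s = t then -1 else 0)
      (2 * (P (k + 1) : ℝ) ^ (-(1 / 4 : ℝ))) 3 (by positivity)
      (fun s => by
        have e1 := e_rm (D (k + 1)).σ y t hp hy s
        have e2 : ∑ a, y a * Rm (D (k + 1)).σ a s =
            ∑ a, (y a - Rm (D (k + 1)).σ a t) * Rm (D (k + 1)).σ a s +
            ∑ a, Rm (D (k + 1)).σ a t * Rm (D (k + 1)).σ a s := by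
          rw [← Finset.sum_add_distrib]
          exact Finset.sum_congr rfl fun a _ => by ring
        rw [e2]
        by_cases hs : s = t
        · rw [if_pos hs]
          have e3 : ∑ a, Rm (D (k + 1)).σ a t * Rm (D (k + 1)).σ a s = 1 := by
            rw [hs, ← rm_sum (D (k + 1)).σ (by omega) t]
            exact Finset.sum_congr rfl fun a _ => by ring
          rw [e3]
          have e4 : ∑ a, (y a - Rm (D (k + 1)).σ a t) * Rm (D (k + 1)).σ a s + 1 + -1 =
            ∑ a, (y a - Rm (D (k + 1)).σ a t) * Rm (D (k + 1)).σ a s := by ring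
          rw [e4]
          linarith
        · rw [if_neg hs, add_zero]
          have e3 := hT.h1 t s (Ne.symm hs)
          have e4 := abs_add_le (∑ a, (y a - Rm (D (k + 1)).σ a t) * Rm (D (k + 1)).σ a s)
            (∑ a, Rm (D (k + 1)).σ a t * Rm (D (k + 1)).σ a s)
          linarith) (by norm_num)
      (by
        have e1 : ∑ s : Fin (P (k + 1 + 1)), (if s = t then (-1 : ℝ) else 0) ^ 2 = 1 := by
          rw [Finset.sum_eq_single t]
          · simp
          · intro b _ hb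
            simp [hb]
          · intro h; exact absurd (Finset.mem_univ _) h
        rw [e1]
        linarith)
      (fun hJ => by
        have e1 : ∑ s : Fin (P (k + 1 + 1)), (if s = t then (-1 : ℝ) else 0) ^ 2 = 1 := by
          rw [Finset.sum_eq_single t]
          · simp
          · intro b _ hb
            simp [hb]
          · intro h; exact absurd (Finset.mem_univ _) h
        rw [e1]
        have e2 := hT.hr (k + 1) (by omega) hJ
        have e3 : (P (k + 1) : ℝ) ^ (1 / 8 : ℝ) *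
            (2 * (P (k + 1) : ℝ) ^ (-(1 / 4 : ℝ))) ^ 2 ≤ 4 := by
          have e4 : (P (k + 1) : ℝ) ^ (1 / 8 : ℝ) *
            (2 * (P (k + 1) : ℝ) ^ (-(1 / 4 : ℝ))) ^ 2 =
            4 * (P (k + 1) : ℝ) ^ (-(3 / 8) : ℝ) := by
            have e5 : (-(3 / 8) : ℝ) = 1 / 8 + (-(1 / 4)) + (-(1 / 4)) := by norm_num
            rw [e5, Real.rpow_add hp0, Real.rpow_add hp0]
            ring
          rw [e4]
          have e6 : (P (k + 1) : ℝ) ^ (-(3 / 8) : ℝ) ≤ 1 :=
            Real.rpow_le_one_of_one_le_of_nonpos (by linarith) (by norm_num)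
          linarith
        have e7 : (D (k + 1)).r (D (k + 1)).J * (2 * (P (k + 1) : ℝ) ^ (-(1 / 4 : ℝ))) ^ 2 ≤
            (P (k + 1) : ℝ) ^ (1 / 8 : ℝ) * (2 * (P (k + 1) : ℝ) ^ (-(1 / 4 : ℝ))) ^ 2 :=
          mul_le_mul_of_nonneg_right e2 (by positivity)
        linarith) (pr P D x (k + 1))
    have e1 : ∑ s : Fin (P (k + 1 + 1)), (((if s = t then (-1 : ℝ) else 0) : ℝ) : ℂ) *
        (pr P D x (k + 1)).2 s = -(pr P D x (k + 1)).2 t := by
      rw [Finset.sum_eq_single t]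
      · simp
      · intro b _ hb
        simp [hb]
      · intro h; exact absurd (Finset.mem_univ _) h
    rw [e1, ← sub_eq_add_neg] at h1
    exact h1
  -- the third part
  have hC : ‖(pr P D x (k + 2)).1 t‖ ≤ 3 / 2 * ‖x (k + 2)‖ := by
    have e0 : ∑ s : Fin (P (k + 2)), (if s = t then (1 : ℝ) else 0) ^ 2 = 1 := by
      rw [Finset.sum_eq_single t]
      · simp
      · intro b _ hb
        simp [hb]
      · intro h; exact absurd (Finset.mem_univ _) h
    have h1 := lf_bound hLF (D (k + 2)) (fun s => if s = t then 1 else 0) 0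
      (1 / Real.sqrt (P (k + 2))) (3 / 2) (by positivity)
      (fun s => by
        have e1 : ∑ a, (if a = t then (1 : ℝ) else 0) * Rm (D (k + 2)).σ a s =
            Rm (D (k + 2)).σ t s := by
          rw [Finset.sum_eq_single t]
          · simp
          · intro b _ hb
            simp [hb]
          · intro h; exact absurd (Finset.mem_univ _) h
        rw [e1, Pi.zero_apply, add_zero, rm_abs]) (by norm_num)
      (by
        rw [e0]
        simp only [Pi.zero_apply, ne_eq, OfNat.ofNat_ne_zero, not_false_eq_true, zero_pow,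
          Finset.sum_const_zero, add_zero]
        norm_num)
      (fun hJ => by
        rw [e0]
        simp only [Pi.zero_apply, ne_eq, OfNat.ofNat_ne_zero, not_false_eq_true, zero_pow,
          Finset.sum_const_zero, add_zero]
        have e1 := hT.hr (k + 2) (by omega) hJ
        have e2 := hpow (P (k + 2)) (by linarith)
        have e5 : (1 / Real.sqrt (P (k + 2))) ^ 2 = 1 / P (k + 2) := by
          rw [div_pow, Real.sq_sqrt hq0.le]; norm_num
        rw [e5]
        have e6 : (D (k + 2)).r (D (k + 2)).J * (1 / (P (k + 2) : ℝ)) ≤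
            P (k + 2) * (1 / (P (k + 2) : ℝ)) :=
          mul_le_mul_of_nonneg_right (by linarith) (by positivity)
        have e7 : (P (k + 2) : ℝ) * (1 / (P (k + 2) : ℝ)) = 1 := by field_simp
        linarith) (pr P D x (k + 2))
    have e1 : ∑ s : Fin (P (k + 2)), (((if s = t then (1 : ℝ) else 0) : ℝ) : ℂ) *
        (pr P D x (k + 2)).1 s = (pr P D x (k + 2)).1 t := by
      rw [Finset.sum_eq_single t]
      · simp
      · intro b _ hb
        simp [hb]
      · intro h; exact absurd (Finset.mem_univ _) h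
    rw [e1] at h1
    simp only [Pi.zero_apply, Complex.ofReal_zero, zero_mul, Finset.sum_const_zero,
      add_zero] at h1
    exact h1
  have hn : ∀ j, ‖x j‖ ≤ ‖x‖ := fun j => lp.norm_apply_le_norm (by norm_num) x j
  have hsplit : ∑ a, (y a : ℂ) * hh P D x (k + 1) a - hh P D x (k + 2) t =
      ∑ a, (y a : ℂ) * (pr P D x k).2 a +
      (∑ a, (y a : ℂ) * (pr P D x (k + 1)).1 a - (pr P D x (k + 1)).2 t) -
      (pr P D x (k + 2)).1 t := by
    have e1 : ∀ a, hh P D x (k + 1) a = (pr P D x k).2 a + (pr P D x (k + 1)).1 a :=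
      fun a => rfl
    have e2 : hh P D x (k + 2) t = (pr P D x (k + 1)).2 t + (pr P D x (k + 2)).1 t := rfl
    rw [e2]
    simp only [e1, mul_add, Finset.sum_add_distrib]
    ring
  rw [hsplit]
  refine (norm_sub_le _ _).trans ?_
  refine (add_le_add (norm_add_le _ _) le_rfl).trans ?_
  have n1 := hn k
  have n2 := hn (k + 1)
  have n3 := hn (k + 2)
  have n4 := norm_nonneg x
  linarith

end Pool.Agent.Helper16.HL
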