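import Pool.Agent.Helper25.HL.Goals1

/-!
# Project HL (MP_03bcbb_an): packet LAB, discretised labels exist
-/

set_option autoImplicit false

open Filter Topology
open Pool.Agent.Helper25.HL renaming sq → sqn
open Pool.Agent.Helper25.HL hiding sq

noncomputable section

namespace Pool.Agent.Helper16.HL

section basic

variable {ι : Type} [Fintype ι]

theorem sq_nonneg' (z : ι → ℂ) : 0 ≤ sqn z := Finset.sum_nonneg fun _ _ => by positivity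

theorem l1_nonneg (z : ι → ℂ) : 0 ≤ l1 z := Finset.sum_nonneg fun _ _ => norm_nonneg _

theorem sq_add_le (x y : ι → ℂ) : sqn (x + y) ≤ 2 * sqn x + 2 * sqn y := by
  unfold sqn
  rw [Finset.mul_sum, Finset.mul_sum, ← Finset.sum_add_distrib]
  refine Finset.sum_le_sum fun t _ => ?_
  have h1 : ‖(x + y) t‖ ≤ ‖x t‖ + ‖y t‖ := norm_add_le _ _
  have h2 := norm_nonneg ((x + y) t)
  nlinarith [sq_nonneg (‖x t‖ - ‖y t‖), norm_nonneg (x t), norm_nonneg (y t)]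

theorem sq_sub_comm (x y : ι → ℂ) : sqn (x - y) = sqn (y - x) := by
  unfold sqn
  refine Finset.sum_congr rfl fun t _ => ?_
  rw [Pi.sub_apply, Pi.sub_apply, norm_sub_rev]

theorem sq_res_le {q : ℕ} (S : Finset (Fin q)) (β : Fin q → ℂ) : sqn (res S β) ≤ sqn β := by
  unfold sqn res
  refine Finset.sum_le_sum fun t _ => ?_
  split_ifs
  · exact le_refl _
  · rw [norm_zero, zero_pow two_ne_zero]
    positivity

theorem l1_res_le {q : ℕ} (S : Finset (Fin q)) (β : Fin q → ℂ) : l1 (res S β) ≤ l1 β := by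
  unfold l1 res
  refine Finset.sum_le_sum fun t _ => ?_
  split_ifs
  · exact le_refl _
  · rw [norm_zero]
    positivity

theorem res_smul {q : ℕ} (S : Finset (Fin q)) (c : ℂ) (β : Fin q → ℂ) :
    res S (c • β) = c • res S β := by
  funext t
  unfold res
  simp only [Pi.smul_apply, smul_eq_mul]
  split_ifs
  · rfl
  · rw [mul_zero]

end basic

/-- The choice of a large size. -/
theorem ex_psi (R δ B : ℝ) (hR : 1 ≤ R) (hδ : 0 < δ) :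
    ∃ Ψ : ℕ, ∀ p : ℕ, Ψ ≤ p → 1 ≤ p ∧ B ≤ p ∧
      (p : ℝ) ^ (-(1 / 4 : ℝ)) * ((p : ℝ) ^ (1 / 16 : ℝ) + R) ^ 2 ≤ δ ^ 2 := by
  have h1 : Tendsto (fun x : ℝ => x ^ (-(1 / 8 : ℝ))) atTop (𝓝 0) :=
    tendsto_rpow_neg_atTop (by norm_num)
  have h2 : Tendsto (fun n : ℕ => ((n : ℝ)) ^ (-(1 / 8 : ℝ))) atTop (𝓝 0) :=
    h1.comp tendsto_natCast_atTop_atTop
  have h3 : 0 < δ ^ 2 / (1 + R) ^ 2 := by positivity
  have h4 : ∀ᶠ n : ℕ in atTop, ((n : ℝ)) ^ (-(1 / 8 : ℝ)) < δ ^ 2 / (1 + R) ^ 2 :=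
    h2.eventually (gt_mem_nhds h3)
  have h5 : ∀ᶠ n : ℕ in atTop, B ≤ (n : ℝ) := tendsto_natCast_atTop_atTop.eventually_ge_atTop B
  have h6 : ∀ᶠ n : ℕ in atTop, 1 ≤ n := eventually_ge_atTop 1
  obtain ⟨Ψ, hΨ⟩ := eventually_atTop.1 (h4.and (h5.and h6))
  refine ⟨Ψ, fun p hp => ?_⟩
  obtain ⟨a1, a2, a3⟩ := hΨ p hp
  refine ⟨a3, a2, ?_⟩
  have hp1 : (1 : ℝ) ≤ p := by exact_mod_cast a3
  have hp0 : (0 : ℝ) < p := by linarith
  have b1 : (1 : ℝ) ≤ (p : ℝ) ^ (1 / 16 : ℝ) := Real.one_le_rpow hp1 (by norm_num)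
  have b2 : (p : ℝ) ^ (1 / 16 : ℝ) + R ≤ (1 + R) * (p : ℝ) ^ (1 / 16 : ℝ) := by nlinarith
  have b3 : ((p : ℝ) ^ (1 / 16 : ℝ)) ^ 2 = (p : ℝ) ^ (1 / 8 : ℝ) := by
    rw [← Real.rpow_natCast, ← Real.rpow_mul hp0.le]
    norm_num
  have b4 : (p : ℝ) ^ (-(1 / 4 : ℝ)) * (p : ℝ) ^ (1 / 8 : ℝ) = (p : ℝ) ^ (-(1 / 8 : ℝ)) := by
    rw [← Real.rpow_add hp0]
    norm_num
  have b5 : 0 < (p : ℝ) ^ (-(1 / 4 : ℝ)) := Real.rpow_pos_of_pos hp0 _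
  calc (p : ℝ) ^ (-(1 / 4 : ℝ)) * ((p : ℝ) ^ (1 / 16 : ℝ) + R) ^ 2
      ≤ (p : ℝ) ^ (-(1 / 4 : ℝ)) * ((1 + R) * (p : ℝ) ^ (1 / 16 : ℝ)) ^ 2 := by
        apply mul_le_mul_of_nonneg_left _ b5.le
        apply pow_le_pow_left₀ (by positivity) b2
    _ = (1 + R) ^ 2 * (p : ℝ) ^ (-(1 / 8 : ℝ)) := by
        rw [mul_pow, b3, ← b4]; ring
    _ ≤ (1 + R) ^ 2 * (δ ^ 2 / (1 + R) ^ 2) := by
        apply mul_le_mul_of_nonneg_left a1.le (by positivity)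
    _ = δ ^ 2 := by
        field_simp

theorem d_le (d p : ℕ) (h : d ^ 8 ≤ p) : d ≤ p := by
  rcases Nat.eq_zero_or_pos d with h0 | h0
  · rw [h0]; exact Nat.zero_le _
  · exact (Nat.le_self_pow (by norm_num) d).trans h

/-- Rounding of a vector of bounded `l1` norm. -/
theorem round_h (hRO : S_RO) {q : ℕ} (v : Fin q → ℂ) (h R : ℝ) (Z : ℕ) (hh : 0 < h)
    (hv : l1 v ≤ R) (hZ : 2 * R / h ≤ Z) :
    ∃ m : Fin q → ℂ, GI Z m ∧ sqn (v - (h : ℂ) • m) ≤ 2 * h * R ∧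
      l1 (v - (h : ℂ) • m) ≤ R ∧ l1 ((h : ℂ) • m) ≤ R ∧ sqn ((h : ℂ) • m) ≤ sqn v := by
  obtain ⟨a, b, m, h1, -, h3, -, h5, h6, h7, h8⟩ := hRO q v h hh
  refine ⟨m, ⟨a, b, h1, ?_⟩, ?_, h6.trans hv, h7.trans hv, h8⟩
  · have e1 : (∑ t, (|(a t : ℝ)| + |(b t : ℝ)|)) ≤ Z := by
      refine le_trans ?_ hZ
      rw [le_div_iff₀ hh]
      linarith
    have e2 : ((∑ t, (|a t| + |b t|) : ℤ) : ℝ) ≤ ((Z : ℤ) : ℝ) := by
      push_cast
      exact e1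
    exact_mod_cast e2
  · refine h5.trans ?_
    apply mul_le_mul_of_nonneg_left hv (by positivity)

/-- Rounding of a vector with bounded entries. -/
theorem round_e (hRO : S_RO) {d : ℕ} (v : Fin d → ℂ) (p : ℕ) (hp : 1 ≤ p)
    (hv : ∀ x, ‖v x‖ ≤ p) :
    ∃ k : Fin d → ℂ, GB (p ^ 2) k ∧ sqn (v - (((1 / p : ℝ)) : ℂ) • k) ≤ 2 * d / (p : ℝ) ^ 2 ∧
      ∀ x, ‖((((1 / p : ℝ)) : ℂ) • k) x‖ ≤ 2 * p := by
  have hp0 : (0 : ℝ) < p := by exact_mod_cast hp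
  have hh : (0 : ℝ) < 1 / p := by positivity
  obtain ⟨a, b, m, h1, h2, -, h4, -⟩ := hRO d v (1 / p) hh
  have hab : ∀ t, |(a t : ℝ)| ≤ (p : ℝ) ^ 2 ∧ |(b t : ℝ)| ≤ (p : ℝ) ^ 2 := by
    intro t
    obtain ⟨u1, u2⟩ := h2 t
    have u3 := hv t
    constructor
    · have := u1.trans u3
      rw [mul_one_div, div_le_iff₀ hp0] at this
      nlinarith
    · have := u2.trans u3
      rw [mul_one_div, div_le_iff₀ hp0] at this
      nlinarith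
  refine ⟨m, ⟨a, b, h1, fun t => ?_⟩, ?_, fun x => ?_⟩
  · obtain ⟨u1, u2⟩ := hab t
    constructor
    · have e2 : ((|a t| : ℤ) : ℝ) ≤ (((p ^ 2 : ℕ) : ℤ) : ℝ) := by
        push_cast
        exact u1
      exact_mod_cast e2
    · have e2 : ((|b t| : ℤ) : ℝ) ≤ (((p ^ 2 : ℕ) : ℤ) : ℝ) := by
        push_cast
        exact u2
      exact_mod_cast e2
  · unfold sqn
    calc ∑ t, ‖(v - (((1 / p : ℝ)) : ℂ) • m) t‖ ^ 2 ≤ ∑ _t : Fin d, 2 * (1 / (p : ℝ)) ^ 2 :=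
          Finset.sum_le_sum fun t _ => h4 t
      _ = 2 * d / (p : ℝ) ^ 2 := by
          rw [Finset.sum_const, Finset.card_univ, Fintype.card_fin, nsmul_eq_mul]
          field_simp
  · obtain ⟨u1, u2⟩ := hab x
    rw [Pi.smul_apply, smul_eq_mul, norm_mul, Complex.norm_real, Real.norm_eq_abs,
      abs_of_pos hh]
    have e1 : ‖m x‖ ≤ 2 * (p : ℝ) ^ 2 := by
      rw [h1 x]
      refine (norm_add_le _ _).trans ?_
      rw [norm_mul, Complex.norm_I, mul_one, Complex.norm_intCast, Complex.norm_intCast]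
      linarith
    calc 1 / (p : ℝ) * ‖m x‖ ≤ 1 / (p : ℝ) * (2 * (p : ℝ) ^ 2) :=
          mul_le_mul_of_nonneg_left e1 hh.le
      _ = 2 * p := by field_simp

/-- The exchange of sums. -/
theorem card_heavy {N q : ℕ} (ϖ : Fin N → ℝ) (b : Fin N → Fin q → ℂ) (K R τ : ℝ)
    (S : Finset (Fin q)) (hϖ : ∀ j, 0 ≤ ϖ j) (hK : ∑ j, ϖ j ≤ K) (hR : 0 ≤ R)
    (hb : ∀ j, l1 (b j) ≤ R) (hS : ∀ t ∈ S, τ ≤ ∑ j, ϖ j * ‖b j t‖) : S.card * τ ≤ R * K := by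
  have h1 : (S.card : ℝ) * τ ≤ ∑ t ∈ S, ∑ j, ϖ j * ‖b j t‖ := by
    rw [← nsmul_eq_mul]
    exact Finset.card_nsmul_le_sum S _ τ hS
  refine h1.trans ?_
  rw [Finset.sum_comm]
  have h2 : ∀ j, ∑ t ∈ S, ϖ j * ‖b j t‖ ≤ ϖ j * R := by
    intro j
    rw [← Finset.mul_sum]
    apply mul_le_mul_of_nonneg_left _ (hϖ j)
    refine le_trans ?_ (hb j)
    exact Finset.sum_le_sum_of_subset_of_nonneg (Finset.subset_univ S)
      fun _ _ _ => norm_nonneg _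
  refine (Finset.sum_le_sum fun j _ => h2 j).trans ?_
  rw [← Finset.sum_mul, mul_comm]
  exact mul_le_mul_of_nonneg_left hK hR

/-- The labels for given constants. -/
theorem lab_core (hRDG : S_RDG) (hRO : S_RO) (hCOH : S_COH) (hSH : S_SH) (hEM : S_EM)
    (hLP : S_LP) (hNU : S_NU) {K ε R δ h ε5 Λ θ : ℝ} {Z C T L p q : ℕ}
    (hK : 1 ≤ K) (hR : 1 ≤ R) (hδ : 0 < δ) (hδ1 : δ ≤ 1 / 2)
    (hh : h = δ ^ 2 / (2 * R)) (hZ : 1 ≤ Z) (hZ1 : 2 * R / h ≤ Z) (hZ2 : 2 / δ ^ 2 ≤ Z)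
    (hZ3 : 2 ^ 12 * K / ε ^ 2 ≤ Z) (hC : 1 ≤ C) (hT : 1 ≤ T) (hT1 : 3 / δ ^ 2 ≤ T)
    (hε : 0 < ε) (h50 : 0 < ε5) (h51 : ε5 < 1)
    (h5a : (Z : ℝ) ^ 3 * (2 * C * (2 + R * K)) * ε5 / h ≤ K * δ ^ 2 / 2)
    (h5b : (Z : ℝ) ^ 3 * (2 * C * (2 + R * K)) * ε5 / h ≤ ε ^ 2 / 2 ^ 11)
    (h5c : R * ε5 * (3 + R * K) ≤ (ε / 16) ^ 2)
    (hL : 2 * C * (2 + R * K) / ε5 ^ T ≤ L) (hΛ : 1 ≤ Λ) (hθ1 : 1 ≤ θ) (hθ2 : 8 * Λ ≤ δ * θ)
    (hp : 1 ≤ p) (hp1 : 2 / δ ^ 2 ≤ p) (hp2 : L + 3 ≤ p)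
    (hp3 : (p : ℝ) ^ (-(1 / 4 : ℝ)) * ((p : ℝ) ^ (1 / 16 : ℝ) + R) ^ 2 ≤ δ ^ 2)
    {σ : Fin p → Fin q → Bool} (hP1 : P1 σ) (hP3 : P3 Z L Λ σ) (hP4 : P4 Z C L σ) {d : ℕ}
    (hd : d ^ 8 ≤ p) {N : ℕ} (s : Sys σ K R δ θ d N) : Nonempty (Lab s ε Λ) := by
  have hR0 : (0 : ℝ) < R := by linarith
  have hK0 : (0 : ℝ) < K := by linarith
  have hRK : 0 < R * K := mul_pos hR0 hK0
  have hRK1 : 1 ≤ R * K := one_le_mul_of_one_le_of_one_le hR hK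
  have hKδ : 0 < K * δ ^ 2 := by positivity
  have hδ2 : 0 < δ ^ 2 := by positivity
  have hh0 : 0 < h := by rw [hh]; positivity
  have hhR : 2 * h * R = δ ^ 2 := by rw [hh]; field_simp
  have hδ4 : δ ^ 2 ≤ 1 / 4 := by nlinarith
  have hh1 : h ≤ 1 := by
    have := mul_le_mul_of_nonneg_left hR hh0.le
    linarith
  have hp0 : (0 : ℝ) < p := by exact_mod_cast hp
  have hpR : (1 : ℝ) ≤ p := by exact_mod_cast hp
  have hZ0 : (0 : ℝ) < Z := by exact_mod_cast hZ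
  have hC0 : (1 : ℝ) ≤ C := by exact_mod_cast hC
  have hdp : d ≤ p := d_le d p hd
  have hdp' : (d : ℝ) ≤ p := by exact_mod_cast hdp
  -- the coherence term
  obtain ⟨X, hX⟩ : ∃ X : ℝ, X = (p : ℝ) ^ (-(1 / 4 : ℝ)) := ⟨_, rfl⟩
  have hX0 : 0 ≤ X := by rw [hX]; positivity
  have hXR : X * R ^ 2 ≤ δ ^ 2 := by
    refine le_trans ?_ hp3
    rw [← hX]
    apply mul_le_mul_of_nonneg_left _ hX0
    have h1 : (0 : ℝ) ≤ (p : ℝ) ^ (1 / 16 : ℝ) := by positivity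
    exact pow_le_pow_left₀ hR0.le (by linarith) 2
  have hcoh : ∀ β : Fin q → ℂ, l1 β ≤ R → sqn (RV σ β) ≤ sqn β + δ ^ 2 := by
    intro β hβ
    have h1 := hCOH p q σ hp hP1 β
    rw [← hX] at h1
    have h2 : X * (l1 β) ^ 2 ≤ X * R ^ 2 := by
      apply mul_le_mul_of_nonneg_left _ hX0
      exact pow_le_pow_left₀ (l1_nonneg β) hβ 2
    linarith
  -- roundings
  choose k hk1 hk2 hk3 using fun j => round_e hRO (s.e j) p hp (s.he j)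
  choose a ha1 ha2 ha3 ha4 ha5 using fun j => round_h hRO (s.α j) h R Z hh0 (s.hα j) hZ1
  choose m hm1 hm2 hm3 hm4 hm5 using fun j => round_h hRO (s.β j) h R Z hh0 (s.hβR j) hZ1
  have hβ3 : ∀ j, sqn (s.β j) ≤ 3 := by
    intro j
    have e1 : s.β j = s.w j + (s.β j - s.w j) := by abel
    have h1 := sq_add_le (s.w j) (s.β j - s.w j)
    rw [← e1, sq_sub_comm] at h1
    have h2 := s.huw j
    have h3 := s.hβ j
    have h4 := sq_nonneg' (s.u j)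
    have h5 := sq_nonneg' (s.u j - RV σ (s.β j))
    linarith
  have hb3 : ∀ j, sqn ((h : ℂ) • m j) ≤ 3 := fun j => (hm5 j).trans (hβ3 j)
  -- the shell
  have hM : ∑ j, s.ϖ j * sqn ((h : ℂ) • m j) ≤ 3 * K := by
    calc ∑ j, s.ϖ j * sqn ((h : ℂ) • m j) ≤ ∑ j, s.ϖ j * 3 :=
          Finset.sum_le_sum fun j _ => mul_le_mul_of_nonneg_left (hb3 j) (s.hϖ j)
      _ = (∑ j, s.ϖ j) * 3 := by rw [Finset.sum_mul]
      _ ≤ 3 * K := by linarith [s.hK]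
  obtain ⟨l, hl, S, S', hSS, hS, hS', hshell⟩ := hSH q N T s.ϖ (fun j => (h : ℂ) • m j) (3 * K)
    ε5 (1 / p) hT s.hϖ hM h50 h51 (by positivity)
  obtain ⟨τ, hτ⟩ : ∃ τ : ℝ, τ = 1 / p * ε5 ^ l := ⟨_, rfl⟩
  have hτ0 : 0 < τ := by rw [hτ]; positivity
  have hpτ : (p : ℝ) * τ = ε5 ^ l := by rw [hτ]; field_simp
  have hpτ1 : (p : ℝ) * τ ≤ 1 := by rw [hpτ]; exact pow_le_one₀ h50.le h51.le
  have hpτ2 : ε5 ^ T ≤ (p : ℝ) * τ := by
    rw [hpτ]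
    exact pow_le_pow_of_le_one h50.le h51.le hl.le
  have hT0 : (0 : ℝ) < T := by exact_mod_cast hT
  have hshell' : ∑ j, s.ϖ j * sqn (res (S' \ S) ((h : ℂ) • m j)) ≤ K * δ ^ 2 := by
    refine hshell.trans ?_
    rw [div_le_iff₀ hT0]
    rw [div_le_iff₀ hδ2] at hT1
    have := mul_le_mul_of_nonneg_left hT1 hK0.le
    linarith
  have hcardτ : (S.card : ℝ) * τ ≤ R * K := by
    apply card_heavy s.ϖ (fun j => (h : ℂ) • m j) K R τ S s.hϖ s.hK hR0.le hm4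
    intro t ht
    rw [hτ]
    exact (hS t).1 ht
  have hdτ : (d : ℝ) * τ ≤ 1 := (mul_le_mul_of_nonneg_right hdp' hτ0.le).trans hpτ1
  have hLτ : 2 * C * (2 + R * K) ≤ (L : ℝ) * ((p : ℝ) * τ) := by
    have h1 : 0 < ε5 ^ T := pow_pos h50 T
    rw [div_le_iff₀ h1] at hL
    refine hL.trans ?_
    exact mul_le_mul_of_nonneg_left hpτ2 (Nat.cast_nonneg L)
  have hC1 : 2 + R * K ≤ C * (2 + R * K) := le_mul_of_one_le_left (by positivity) hC0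
  have hC2 : R * K ≤ 2 * C * (2 + R * K) := by linarith
  have hSL : (S.card : ℝ) ≤ L * p := by
    by_contra hcon
    push Not at hcon
    have := mul_lt_mul_of_pos_right hcon hτ0
    linarith
  have hSL' : S.card ≤ L * p := by exact_mod_cast hSL
  -- the number `N₁`
  obtain ⟨Y, hY⟩ : ∃ Y : ℝ, Y = C * (2 + R * K) / τ := ⟨_, rfl⟩
  have hYτ : Y * τ = C * (2 + R * K) := by rw [hY]; field_simp
  have hY1 : 1 ≤ Y := by
    rw [hY, le_div_iff₀ hτ0]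
    have h1 : τ ≤ p * τ := le_mul_of_one_le_left hτ0.le hpR
    linarith
  obtain ⟨N₁, hN₁⟩ : ∃ N₁ : ℕ, N₁ = ⌈Y⌉₊ := ⟨_, rfl⟩
  have hN1a : Y ≤ N₁ := by rw [hN₁]; exact Nat.le_ceil Y
  have hN1b : (N₁ : ℝ) ≤ 2 * Y := by
    have := Nat.ceil_lt_add_one (show 0 ≤ Y by linarith)
    rw [← hN₁] at this
    linarith
  have hN1τ : (N₁ : ℝ) * τ ≤ 2 * C * (2 + R * K) := by
    have := mul_le_mul_of_nonneg_right hN1b hτ0.le
    linarith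
  have hN1L : (N₁ : ℝ) ≤ L * p := by
    by_contra hcon
    push Not at hcon
    have := mul_lt_mul_of_pos_right hcon hτ0
    linarith
  have hN1L' : N₁ ≤ L * p := by exact_mod_cast hN1L
  have hpN1 : (p : ℝ) ≤ N₁ := by
    refine le_trans ?_ hN1a
    rw [hY, le_div_iff₀ hτ0]
    linarith
  have hpN1' : p ≤ N₁ := by exact_mod_cast hpN1
  have hCN1 : (C : ℝ) * (d + p + S.card) ≤ N₁ := by
    refine le_trans ?_ hN1a
    rw [hY, le_div_iff₀ hτ0, mul_assoc]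
    apply mul_le_mul_of_nonneg_left _ (by linarith)
    linarith
  have hCN1' : C * (d + p + S.card) ≤ N₁ := by exact_mod_cast hCN1
  -- the light coordinates
  have hlight : ∀ t, t ∉ S' → ∑ j, s.ϖ j * ‖((h : ℂ) • m j) t‖ ≤ ε5 * τ := by
    intro t ht
    rw [hS' t, not_le] at ht
    refine ht.le.trans (le_of_eq ?_)
    rw [hτ]
    ring
  have hnorm : ∀ j t, ‖((h : ℂ) • m j) t‖ = h * ‖m j t‖ := by
    intro j t
    rw [Pi.smul_apply, smul_eq_mul, norm_mul, Complex.norm_real, Real.norm_eq_abs,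
      abs_of_pos hh0]
  have hlight' : ∀ t, t ∉ S' → ∑ j, s.ϖ j * ‖m j t‖ ≤ ε5 * τ / h := by
    intro t ht
    rw [le_div_iff₀ hh0, Finset.sum_mul]
    refine le_trans (le_of_eq ?_) (hlight t ht)
    refine Finset.sum_congr rfl fun j _ => ?_
    rw [hnorm]
    ring
  have hηm : 0 ≤ ε5 * τ / h := by positivity
  have hZN : (Z : ℝ) ^ 3 * N₁ * (ε5 * τ / h) ≤
      (Z : ℝ) ^ 3 * (2 * C * (2 + R * K)) * ε5 / h := by
    have e1 : (Z : ℝ) ^ 3 * N₁ * (ε5 * τ / h) = (Z : ℝ) ^ 3 * ((N₁ : ℝ) * τ) * ε5 / h := by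
      ring
    rw [e1]
    apply div_le_div_of_nonneg_right _ hh0.le
    apply mul_le_mul_of_nonneg_right _ h50.le
    exact mul_le_mul_of_nonneg_left hN1τ (by positivity)
  have hKZ1 : K / Z ≤ K * δ ^ 2 / 2 := by
    rw [div_le_iff₀ hZ0]
    rw [div_le_iff₀ hδ2] at hZ2
    have := mul_le_mul_of_nonneg_left hZ2 hK0.le
    linarith
  have hKZ2 : K / Z ≤ ε ^ 2 / 2 ^ 12 := by
    rw [div_le_iff₀ hZ0]
    rw [div_le_iff₀ (by positivity)] at hZ3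
    linarith
  have hEB := hEM p q N N₁ Z L σ Λ K h (ε5 * τ / h) s.ϖ m S S' hp hZ hΛ hP3 s.hϖ s.hK hh0 hh1
    hm1 hSS hSL' hlight' hηm hpN1' hN1L'
  have hEB' : ∑ j, s.ϖ j * EB σ S Λ (RV σ (res S'ᶜ ((h : ℂ) • m j))) ≤ K * δ ^ 2 := by
    linarith
  -- the shell under the code
  have hsumR : ∀ φ : Fin N → ℝ, (∑ j, s.ϖ j * (φ j + δ ^ 2)) ≤ ∑ j, s.ϖ j * φ j + K * δ ^ 2 := by
    intro φ
    have e1 : ∑ j, s.ϖ j * (φ j + δ ^ 2) = ∑ j, s.ϖ j * φ j + (∑ j, s.ϖ j) * δ ^ 2 := by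
      rw [Finset.sum_mul, ← Finset.sum_add_distrib]
      exact Finset.sum_congr rfl fun j _ => by ring
    rw [e1]
    have := mul_le_mul_of_nonneg_right s.hK hδ2.le
    linarith
  have hshR : ∑ j, s.ϖ j * sqn (RV σ (res (S' \ S) ((h : ℂ) • m j))) ≤ 2 * K * δ ^ 2 := by
    have h1 : ∑ j, s.ϖ j * sqn (RV σ (res (S' \ S) ((h : ℂ) • m j))) ≤
        ∑ j, s.ϖ j * (sqn (res (S' \ S) ((h : ℂ) • m j)) + δ ^ 2) :=
      Finset.sum_le_sum fun j _ => mul_le_mul_of_nonneg_left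
        (hcoh _ ((l1_res_le _ _).trans (hm4 j))) (s.hϖ j)
    have h2 := hsumR fun j => sqn (res (S' \ S) ((h : ℂ) • m j))
    linarith
  obtain ⟨bm, hbm1, hbm2, hbm3⟩ := hRDG p q σ S Λ hΛ
  have heδ : ∀ j, sqn (s.e j - (((1 / p : ℝ)) : ℂ) • k j) ≤ δ ^ 2 := by
    intro j
    refine (hk2 j).trans ?_
    rw [div_le_iff₀ (by positivity)]
    rw [div_le_iff₀ hδ2] at hp1
    have := mul_le_mul_of_nonneg_right hp1 hp0.le
    linarith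
  have hν := hNU p q d N σ K R δ θ Λ h s (fun j => (((1 / p : ℝ)) : ℂ) • k j)
    (fun j => (h : ℂ) • a j) (fun j => (h : ℂ) • m j) S S' bm hp hP1 hK hR hδ (by linarith) hΛ
    hh0 hhR.le hθ1 hθ2 hp3 hSS heδ ha2 (fun j => ⟨hm2 j, hm3 j, hm4 j⟩) hbm1 hbm2 hbm3 hshR
    hEB'
  refine ⟨{
    eh := fun j => (((1 / p : ℝ)) : ℂ) • k j
    ah := fun j => (h : ℂ) • a j
    bh := fun j => (h : ℂ) • m j
    S := S
    S' := S'
    η := ε5 * τ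
    bm := bm
    hSS := hSS
    hcard := ?_
    heh := hk3
    hah := ha4
    hbh := hm4
    hbm := hbm1
    hbn := hbm2
    hν := hν
    hy := ?_
    hsh := ?_
    hvl := ?_
    hη := by positivity
    hlight := hlight
    hW := ?_
    hLP := ?_ }⟩
  · calc d + 2 * p + S.card ≤ p + 2 * p + L * p := by omega
      _ = (L + 3) * p := by ring
      _ ≤ p * p := Nat.mul_le_mul_right p hp2
      _ = p ^ 2 := by ring
  · intro j
    have e1 : s.u j - RV σ ((h : ℂ) • m j) =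
        (s.u j - RV σ (s.β j)) + RV σ (s.β j - (h : ℂ) • m j) := by
      rw [map_sub]; abel
    have e2 : s.w j - (h : ℂ) • m j = (s.w j - s.β j) + (s.β j - (h : ℂ) • m j) := by abel
    have h1 := sq_add_le (s.u j - RV σ (s.β j)) (RV σ (s.β j - (h : ℂ) • m j))
    have h2 := sq_add_le (s.w j - s.β j) (s.β j - (h : ℂ) • m j)
    rw [← e1] at h1
    rw [← e2] at h2
    have h3 := hcoh _ (hm3 j)
    have h4 := hm2 j
    have h5 := s.hβ j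
    rw [hhR] at h4
    linarith
  · have h1 : ∑ j, s.ϖ j * (sqn (RV σ (res (S' \ S) ((h : ℂ) • m j))) +
        sqn (res (S' \ S) ((h : ℂ) • m j))) =
        ∑ j, s.ϖ j * sqn (RV σ (res (S' \ S) ((h : ℂ) • m j))) +
          ∑ j, s.ϖ j * sqn (res (S' \ S) ((h : ℂ) • m j)) := by
      rw [← Finset.sum_add_distrib]
      exact Finset.sum_congr rfl fun j _ => by ring
    rw [h1]
    linarith
  · intro j
    have h1 := hcoh (res S'ᶜ ((h : ℂ) • m j)) ((l1_res_le _ _).trans (hm4 j))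
    have h2 := (sq_res_le S'ᶜ ((h : ℂ) • m j)).trans (hb3 j)
    linarith
  · have h1 : ((d : ℝ) + 2 * p + S.card) * τ ≤ 3 + R * K := by linarith
    calc R * (ε5 * τ) * (d + 2 * p + S.card) = R * ε5 * (((d : ℝ) + 2 * p + S.card) * τ) := by
          ring
      _ ≤ R * ε5 * (3 + R * K) := mul_le_mul_of_nonneg_left h1 (by positivity)
      _ ≤ (ε / 16) ^ 2 := h5c
  · intro M₁ M₂ M₃ f hf
    have h1 := hLP p q d N N₁ Z C L σ K h (ε5 * τ / h) s.ϖ k a m S S' hp hZ hC hP4 hd s.hϖ s.hK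
      hh0 hh1 hk1 ha1 hm1 hSS hlight' hηm hCN1' hN1L' ((((1 / p : ℝ)) : ℂ) • M₁) ((h : ℂ) • M₂)
      ((h : ℂ) • M₃) f (fun j => by
        rw [hf j, res_smul, Matrix.mulVec_smul, Matrix.mulVec_smul, Matrix.mulVec_smul,
          Matrix.smul_mulVec, Matrix.smul_mulVec, Matrix.smul_mulVec])
    refine h1.trans ?_
    apply mul_le_mul_of_nonneg_right
    · have e2 : (ε / 16) ^ 2 = ε ^ 2 / 2 ^ 8 := by ring
      rw [e2]
      have e3 : (0 : ℝ) ≤ ε ^ 2 := by positivity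
      linarith
    · exact Finset.sum_nonneg fun j _ => mul_nonneg (s.hϖ j) (sq_nonneg' _)

/-- LAB. -/
theorem lab (h1 : S_RDG) (h2 : S_RO) (h3 : S_COH) (h4 : S_SH) (h5 : S_EM) (h6 : S_LP)
    (h7 : S_NU) (_h8 : S_EBF) (_h9 : S_RL) : S_LAB := by
  intro K ε R δ hK hε hε1 hR hδ hrel
  have hδ1 : δ ≤ 1 / 2 := by
    have e1 : ε ^ 2 ≤ 1 := by nlinarith
    have e2 : δ ≤ K * δ := by nlinarith
    nlinarith
  obtain ⟨h, hh⟩ : ∃ h : ℝ, h = δ ^ 2 / (2 * R) := ⟨_, rfl⟩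
  have hR0 : (0 : ℝ) < R := by linarith
  have hK0 : (0 : ℝ) < K := by linarith
  have hh0 : 0 < h := by rw [hh]; positivity
  obtain ⟨Z, hZ⟩ := exists_nat_ge (max (max (2 * R / h) (2 / δ ^ 2)) (max (2 ^ 12 * K / ε ^ 2) 1))
  have hZ1 : 2 * R / h ≤ Z := ((le_max_left _ _).trans (le_max_left _ _)).trans hZ
  have hZ2 : 2 / δ ^ 2 ≤ Z := ((le_max_right _ _).trans (le_max_left _ _)).trans hZ
  have hZ3 : 2 ^ 12 * K / ε ^ 2 ≤ Z := ((le_max_left _ _).trans (le_max_right _ _)).trans hZ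
  have hZ4 : (1 : ℝ) ≤ Z := ((le_max_right _ _).trans (le_max_right _ _)).trans hZ
  have hZ4' : 1 ≤ Z := by exact_mod_cast hZ4
  refine ⟨Z, hZ4', fun C hC => ?_⟩
  have hC0 : (1 : ℝ) ≤ C := by exact_mod_cast hC
  obtain ⟨T, hT⟩ := exists_nat_ge (max (3 / δ ^ 2) 1)
  have hT1 : 3 / δ ^ 2 ≤ T := (le_max_left _ _).trans hT
  have hT2 : 1 ≤ T := by exact_mod_cast (le_max_right _ _).trans hT
  -- `ε5`
  obtain ⟨A, hA⟩ : ∃ A : ℝ, A = (Z : ℝ) ^ 3 * (2 * C * (2 + R * K)) / h := ⟨_, rfl⟩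
  obtain ⟨A', hA'⟩ : ∃ A' : ℝ, A' = R * (3 + R * K) := ⟨_, rfl⟩
  have hA0 : 0 < A := by rw [hA]; positivity
  have hA'0 : 0 < A' := by rw [hA']; positivity
  obtain ⟨c, hc⟩ : ∃ c : ℝ, c = min (min (K * δ ^ 2 / 2) (ε ^ 2 / 2 ^ 11)) ((ε / 16) ^ 2) :=
    ⟨_, rfl⟩
  have hc0 : 0 < c := by
    rw [hc]
    refine lt_min (lt_min ?_ ?_) ?_ <;> positivity
  have hc1 : c ≤ K * δ ^ 2 / 2 := by
    rw [hc]; exact (min_le_left _ _).trans (min_le_left _ _)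
  have hc2 : c ≤ ε ^ 2 / 2 ^ 11 := by
    rw [hc]; exact (min_le_left _ _).trans (min_le_right _ _)
  have hc3 : c ≤ (ε / 16) ^ 2 := by
    rw [hc]; exact min_le_right _ _
  obtain ⟨ε5, hε5⟩ : ∃ ε5 : ℝ, ε5 = min (1 / 2) (c / (A + A')) := ⟨_, rfl⟩
  have h50 : 0 < ε5 := by
    rw [hε5]
    exact lt_min (by norm_num) (by positivity)
  have h51 : ε5 < 1 := by
    rw [hε5]
    exact (min_le_left _ _).trans_lt (by norm_num)
  have h52 : (A + A') * ε5 ≤ c := by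
    have e1 : ε5 ≤ c / (A + A') := by rw [hε5]; exact min_le_right _ _
    rw [le_div_iff₀ (by positivity)] at e1
    linarith
  have h53 : A * ε5 ≤ c := by nlinarith
  have h54 : A' * ε5 ≤ c := by nlinarith
  have h5e : (Z : ℝ) ^ 3 * (2 * C * (2 + R * K)) * ε5 / h = A * ε5 := by rw [hA]; ring
  obtain ⟨L, hL⟩ := exists_nat_ge (max (2 * C * (2 + R * K) / ε5 ^ T) 1)
  have hL1 : 2 * C * (2 + R * K) / ε5 ^ T ≤ L := (le_max_left _ _).trans hL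
  have hL2 : 1 ≤ L := by exact_mod_cast (le_max_right _ _).trans hL
  refine ⟨L, hL2, fun Λ hΛ => ?_⟩
  obtain ⟨Ψ, hΨ⟩ := ex_psi R δ (max (2 / δ ^ 2) (L + 3)) hR hδ
  refine ⟨max 1 (8 * Λ / δ), Ψ, fun p q σ hp s1 s3 s4 θ hθ d hd N s => ?_⟩
  obtain ⟨a1, a2, a3⟩ := hΨ p hp
  have hθ1 : 1 ≤ θ := (le_max_left _ _).trans hθ
  have hθ2 : 8 * Λ ≤ δ * θ := by
    have := (le_max_right _ _).trans hθ
    rw [div_le_iff₀ hδ] at this
    linarith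
  have a4 : ((L + 3 : ℕ) : ℝ) ≤ p := by
    push_cast
    exact (le_max_right _ _).trans a2
  exact lab_core h1 h2 h3 h4 h5 h6 h7 hK hR hδ hδ1 hh hZ4' hZ1 hZ2 hZ3 hC hT2 hT1 hε h50 h51
    (by rw [h5e]; linarith) (by rw [h5e]; linarith) (by rw [hA'] at h54; linarith) hL1 hΛ hθ1
    hθ2 a1 ((le_max_left _ _).trans a2) (by exact_mod_cast a4) a3 s1 s3 s4 hd s

end Pool.Agent.Helper16.HL
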